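import Pool.Agent.TH940.Pack
import Pool.Agent.TH940.Fin
import Pool.Agent.TH940.Inst
import Pool.Agent.W165.CE.Euler

/-!
# The order of vanishing of `L(E/ℚ(ζ_q), s)` at `s = 1`

`E : y² = x³ + a x + b` is any elliptic curve over `ℚ`, `N` is its conductor, `f ∈ S_2(Γ₀(N))` its
newform.

* `L(E, χ, 1) ≠ 0` for **all** primitive Dirichlet characters `χ` of conductor `q` prime to `N` and of
  order at least `q ^ (3/4 + ε)`, if `q` is large in terms of `E` and `ε`.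
* For all powers `q = p ^ k` of primes `p ≠ 2`, `p ∤ N`, the order of vanishing at `s = 1` of the
  Hasse-Weil `L`-function `L(E/ℚ(ζ_q), s)` is at most `C q ^ (3/4 + ε)` and at most `C p ^ (3 + ε)`,
  where `C` depends only on `E` and `ε` (so the second bound is uniform in `k`).

By Kato's theorem `L(E, χ, 1) ≠ 0` implies that the `χ`-part of `E(ℚ(ζ_q)) ⊗ ℂ` is zero, as predicted
by the conjecture of Birch and Swinnerton-Dyer.

The analytic part (mean value of the central values over the conjugates of `χ`, Weil's bound for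
Kloosterman sums) is taken from the starting modules of helper192 and others (`W192.CY`, ...), the
Euler product over the primes of `ℚ(ζ_q)` from those of helper165 (`W165.CE`).
-/

set_option autoImplicit false

open Complex NumberField IsDedekindDomain UpperHalfPlane MatrixGroups CongruenceSubgroup

namespace Pool.Agent.Results.MP_32c55d_nt.CyclotomicAnalyticRank

/-- The coefficient `a_p` of `E : y² = x³ + a x + b` at a prime `p ∤ 2 (4a³ + 27b²)`: `p` minus the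
number of pairs `(x, y)` modulo `p` with `y² = x³ + a x + b`. -/
noncomputable def ap (a b : ℤ) (p : ℕ) : ℤ :=
  (p : ℤ) - Nat.card {x : ZMod p × ZMod p //
    x.2 ^ 2 = x.1 ^ 3 + (a : ZMod p) * x.1 + (b : ZMod p)}

/-- The `n`-th Fourier coefficient of `f`. -/
noncomputable def coef {N : ℕ} (f : CuspForm (Gamma0 N : Subgroup (GL (Fin 2) ℝ)) 2) (n : ℕ) : ℂ :=
  (qExpansion 1 f).coeff n

/-- The primitive `∑ c(n)/n e^(2πinz) = 2πi ∫_{i∞}^z f(w) dw` of `2πi f(z) dz`. -/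
noncomputable def prim {N : ℕ} (f : CuspForm (Gamma0 N : Subgroup (GL (Fin 2) ℝ)) 2) (z : ℂ) : ℂ :=
  ∑' n : ℕ, coef f n / n * Complex.exp (2 * Real.pi * Complex.I * n * z)

/-- `f ∈ S_2(Γ₀(N))` is the newform of the elliptic curve `E : y² = x³ + a x + b`, with its standard
properties: the Fourier coefficients `c(n)` of `f` are real with `c(1) = 1`, they satisfy the Hecke
relations `c(mn) = c(m) c(n)` for coprime `m`, `n` and `c(p^(j+2)) = c(p) c(p^(j+1)) - p c(p^j)`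
(without the last term if `p ∣ N`) and the bounds `|c(p)| ≤ 2√p` for `p ∤ N`, `|c(p)| ≤ 1` for
`p ∣ N`; `f` is an eigenfunction of the Fricke involution: `f(-1/(Nτ)) = -w N τ² f(τ)` with `w = ±1`;
for all primes `p ∤ 2 (4a³ + 27b²)` one has `p ∤ N` and `c(p) = a_p(E)`; and the periods
`2πi ∫_z^{γz} f(w) dw`, `γ ∈ Γ₀(N)`, lie in a lattice `ℤ ω₁ + ℤ ω₂` of `ℂ`.  (Every elliptic curve over
`ℚ` has such a form by the modularity theorem: for a suitable lattice `ℂ/(ℤ ω₁ + ℤ ω₂)` is a curve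
isogenous to `E` and the integral of `2πi f(z) dz` is the modular parametrisation of it by
`X_0(N)`.) -/
structure IsFormOf (a b : ℤ) (N : ℕ) (f : CuspForm (Gamma0 N : Subgroup (GL (Fin 2) ℝ)) 2) :
    Prop where
  one : coef f 1 = 1
  real : ∀ n, (coef f n).im = 0
  mul : ∀ m n : ℕ, Nat.Coprime m n → coef f (m * n) = coef f m * coef f n
  pow : ∀ p j : ℕ, p.Prime → coef f (p ^ (j + 2)) = coef f p * coef f (p ^ (j + 1)) -
      (if p ∣ N then 0 else (p : ℂ) * coef f (p ^ j))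
  good : ∀ p : ℕ, p.Prime → ¬ p ∣ N → ‖coef f p‖ ≤ 2 * Real.sqrt p
  bad : ∀ p : ℕ, p.Prime → p ∣ N → ‖coef f p‖ ≤ 1
  fricke : ∃ w : ℝ, (w = 1 ∨ w = -1) ∧ ∀ τ τ' : ℍ, (τ' : ℂ) * ((N : ℂ) * (τ : ℂ)) = -1 →
    f τ' = -(w : ℂ) * (N : ℂ) * (τ : ℂ) ^ 2 * f τ
  points : ∀ p : ℕ, p.Prime → ¬ (p : ℤ) ∣ 2 * (4 * a ^ 3 + 27 * b ^ 2) →
    ¬ p ∣ N ∧ coef f p = (ap a b p : ℂ)
  periods : ∃ ω₁ ω₂ : ℂ, (ω₁ * (starRingEnd ℂ) ω₂).im ≠ 0 ∧
    ∀ γ : SL(2, ℤ), γ ∈ Gamma0 N → ∃ m n : ℤ, ∀ z : ℍ,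
      prim f ((γ • z : ℍ) : ℂ) = prim f (z : ℂ) + (m * ω₁ + n * ω₂)

/-- `pw t u n = α ^ n + β ^ n`, where `α`, `β` are the roots of `X² - t X + u`. -/
noncomputable def pw (t u : ℂ) : ℕ → ℂ
  | 0 => 2
  | 1 => t
  | n + 2 => t * pw t u (n + 1) - u * pw t u n

section
variable {K : Type} [Field K] [NumberField K]

/-- The number `a_v` of `E : y² = x³ + a x + b` at a prime `v` of `K`: `Nv` minus the number of affine
solutions `(x, y)` of the equation over the residue field `𝓞 K / v`. -/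
noncomputable def av (a b : ℤ) (v : HeightOneSpectrum (𝓞 K)) : ℤ :=
  ((Ideal.absNorm v.asIdeal : ℕ) : ℤ) -
    ((Nat.card {x : (𝓞 K ⧸ v.asIdeal) × (𝓞 K ⧸ v.asIdeal) //
      x.2 ^ 2 = x.1 ^ 3 + (a : 𝓞 K ⧸ v.asIdeal) * x.1 + (b : 𝓞 K ⧸ v.asIdeal)} : ℕ) : ℤ)

open Classical in
/-- The local factor of `L(E/K, s)` at the prime `v` of `K = ℚ(ζ_q)`, `(q, N) = 1`.  If
`v ∤ 2 (4a³ + 27b²)`, it is `(1 - a_v (Nv)^(-s) + (Nv)^(1-2s))⁻¹`.  If `v ∣ 2 (4a³ + 27b²)` and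
`Nv = p ^ d` with `p` prime, it is `(1 - (α^d + β^d) (Nv)^(-s) + (Nv)^(1-2s))⁻¹` for `p ∤ N`, where
`α`, `β` are the roots of `X² - c(p) X + p`, and `(1 - c(p)^d (Nv)^(-s))⁻¹` for `p ∣ N`. -/
noncomputable def factor (a b : ℤ) {N : ℕ} (f : CuspForm (Gamma0 N : Subgroup (GL (Fin 2) ℝ)) 2)
    (s : ℂ) (v : HeightOneSpectrum (𝓞 K)) : ℂ :=
  if ((2 * (4 * a ^ 3 + 27 * b ^ 2) : ℤ) : 𝓞 K) ∈ v.asIdeal then
    (1 - pw (coef f (Ideal.absNorm v.asIdeal).minFac)
          (if (Ideal.absNorm v.asIdeal).minFac ∣ N then 0 else ((Ideal.absNorm v.asIdeal).minFac : ℂ))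
          ((Ideal.absNorm v.asIdeal).factorization (Ideal.absNorm v.asIdeal).minFac)
          * ((Ideal.absNorm v.asIdeal : ℕ) : ℂ) ^ (-s)
      + (if (Ideal.absNorm v.asIdeal).minFac ∣ N then (0 : ℂ) else
          ((Ideal.absNorm v.asIdeal : ℕ) : ℂ) ^ (1 - 2 * s)))⁻¹
  else
    (1 - ((av a b v : ℤ) : ℂ) * ((Ideal.absNorm v.asIdeal : ℕ) : ℂ) ^ (-s)
      + ((Ideal.absNorm v.asIdeal : ℕ) : ℂ) ^ (1 - 2 * s))⁻¹

end

/-- The Euler factor of `L(E, χ, s)` at the prime `p`. -/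
noncomputable def twistFactor {N : ℕ} (f : CuspForm (Gamma0 N : Subgroup (GL (Fin 2) ℝ)) 2) (q : ℕ)
    (χ : DirichletCharacter ℂ q) (s : ℂ) (p : ℕ) : ℂ :=
  (1 - χ (p : ZMod q) * coef f p * (p : ℂ) ^ (-s) +
    (if p ∣ N then 0 else χ (p : ZMod q) ^ 2 * (p : ℂ) ^ (1 - 2 * s)))⁻¹

/-! ### Translation from the analytic normalisation -/

theorem order_shift (L : ℂ → ℂ) : analyticOrderAt (fun z => L (z - 1 / 2)) 1 =
    analyticOrderAt L (1 / 2) := by
  have hg : AnalyticAt ℂ (fun z : ℂ => z - 1 / 2) 1 := by fun_prop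
  have hd : deriv (fun z : ℂ => z - 1 / 2) 1 ≠ 0 := by simp
  have h := analyticOrderAt_comp_of_deriv_ne_zero (f := L) hg hd
  have h2 : (fun z : ℂ => L (z - 1 / 2)) = L ∘ (fun z : ℂ => z - 1 / 2) := rfl
  rw [h2, h]
  norm_num

theorem lamf_eq {N : ℕ} (f : CuspForm (Gamma0 N : Subgroup (GL (Fin 2) ℝ)) 2)
    (hr : ∀ n, (coef f n).im = 0) (p : ℕ) (hp : p.Prime) (s : ℂ) :
    (W388.lamf f p : ℂ) * (p : ℂ) ^ (-(s - 1 / 2)) = coef f p * (p : ℂ) ^ (-s) := by
  have hp0 : (0 : ℝ) < p := by exact_mod_cast hp.pos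
  have hpc : (p : ℂ) ≠ 0 := by exact_mod_cast hp.ne_zero
  have hc : coef f p = ((coef f p).re : ℂ) := by
    apply Complex.ext
    · simp
    · simp [hr p]
  unfold W388.lamf
  rw [hc]
  unfold coef
  rw [show -(s - 1 / 2) = -s + (1 / 2 : ℂ) by ring, Complex.cpow_add _ _ hpc]
  push_cast
  rw [Complex.ofReal_cpow hp0.le]
  have e : ((((2 : ℝ) - 1) / 2 : ℝ) : ℂ) = (1 / 2 : ℂ) := by push_cast; norm_num
  rw [e]
  have hne : (p : ℂ) ^ (1 / 2 : ℂ) ≠ 0 := by
    rw [Ne, Complex.cpow_eq_zero_iff]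
    exact fun h => hpc h.1
  rw [Complex.ofReal_natCast]
  field_simp

theorem eul_shift {N : ℕ} (f : CuspForm (Gamma0 N : Subgroup (GL (Fin 2) ℝ)) 2)
    (hr : ∀ n, (coef f n).im = 0) (q : ℕ)
    (χ : DirichletCharacter ℂ q) (s : ℂ) (p : ℕ) (hp : p.Prime) :
    W165.CE.eul N (coef f) q χ s p =
      (1 - χ (p : ZMod q) * (W388.lamf f p : ℂ) * (p : ℂ) ^ (-(s - 1 / 2)) +
      (if p ∣ N then 0 else χ (p : ZMod q) ^ 2 * (p : ℂ) ^ (-2 * (s - 1 / 2))))⁻¹ := by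
  unfold W165.CE.eul
  rw [mul_assoc (χ (p : ZMod q)) (W388.lamf f p : ℂ), lamf_eq f hr p hp s,
    mul_assoc (χ (p : ZMod q)) (coef f p), show (-2 * (s - 1 / 2) : ℂ) = 1 - 2 * s by ring,
    Pool.Agent.H82R3.EK.prime_cpow p hp.ne_zero s]
  split_ifs with h
  · rw [zero_mul, mul_zero]
  · rfl

theorem twistFactor_eq {N : ℕ} (f : CuspForm (Gamma0 N : Subgroup (GL (Fin 2) ℝ)) 2)
    (hr : ∀ n, (coef f n).im = 0) (q : ℕ)
    (χ : DirichletCharacter ℂ q) (s : ℂ) (p : ℕ) (hp : p.Prime) :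
    twistFactor f q χ s p =
      (1 - χ (p : ZMod q) * (W388.lamf f p : ℂ) * (p : ℂ) ^ (-(s - 1 / 2)) +
      (if p ∣ N then 0 else χ (p : ZMod q) ^ 2 * (p : ℂ) ^ (-2 * (s - 1 / 2))))⁻¹ := by
  unfold twistFactor
  rw [mul_assoc (χ (p : ZMod q)) (W388.lamf f p : ℂ), lamf_eq f hr p hp s,
    mul_assoc (χ (p : ZMod q)) (coef f p), show (-2 * (s - 1 / 2) : ℂ) = 1 - 2 * s by ring]

theorem pw_eq_lib (t u : ℂ) : ∀ n : ℕ, pw t u n = W165.CE.pw t u n
  | 0 => rfl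
  | 1 => rfl
  | n + 2 => by
    rw [pw, W165.CE.pw, pw_eq_lib t u (n + 1), pw_eq_lib t u n]

theorem factor_eq_lib (a b : ℤ) {N : ℕ} (f : CuspForm (Gamma0 N : Subgroup (GL (Fin 2) ℝ)) 2)
    {K : Type} [Field K] [NumberField K] (s : ℂ) (v : HeightOneSpectrum (𝓞 K)) :
    factor a b f s v = W165.CE.fac a b N (coef f) s v := by
  unfold factor W165.CE.fac
  rw [pw_eq_lib]
  rfl

/-- the order of a product at a point -/
theorem order_prod {ι : Type} (s : Finset ι) (F : ι → ℂ → ℂ) (z : ℂ)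
    (h1 : ∀ i ∈ s, AnalyticAt ℂ (F i) z) (h2 : ∀ i ∈ s, analyticOrderAt (F i) z ≠ ⊤) :
    analyticOrderAt (fun w => ∏ i ∈ s, F i w) z =
      ((∑ i ∈ s, analyticOrderNatAt (F i) z : ℕ) : ℕ∞) := by
  classical
  induction s using Finset.induction_on with
  | empty =>
    simp only [Finset.prod_empty, Finset.sum_empty]
    rw [(analyticAt_const).analyticOrderAt_eq_zero.2 one_ne_zero]
    rfl
  | insert i s hi ih =>
    have h3 : (fun w => ∏ j ∈ insert i s, F j w) = (F i) * (fun w => ∏ j ∈ s, F j w) := by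
      funext w
      rw [Finset.prod_insert hi]
      rfl
    have h4 : AnalyticAt ℂ (fun w => ∏ j ∈ s, F j w) z :=
      Finset.analyticAt_fun_prod s fun j hj => h1 j (Finset.mem_insert_of_mem hj)
    rw [h3, analyticOrderAt_mul (h1 i (Finset.mem_insert_self i s)) h4,
      ih (fun j hj => h1 j (Finset.mem_insert_of_mem hj))
        (fun j hj => h2 j (Finset.mem_insert_of_mem hj)), Finset.sum_insert hi,
      ← Nat.cast_analyticOrderNatAt (h2 i (Finset.mem_insert_self i s))]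
    push_cast
    rfl

/-- The general case. -/
theorem main (a b : ℤ) (hE : 4 * a ^ 3 + 27 * b ^ 2 ≠ 0) (N : ℕ) [NeZero N]
    (f : CuspForm (Gamma0 N : Subgroup (GL (Fin 2) ℝ)) 2) (hf : IsFormOf a b N f) :
    ∃ (L : (q : ℕ) → DirichletCharacter ℂ q → ℂ → ℂ) (Z : ℕ → ℂ → ℂ),
      (∀ (q : ℕ) (χ : DirichletCharacter ℂ q), 1 ≤ q → Nat.Coprime q N → χ.IsPrimitive →
        Differentiable ℂ (L q χ) ∧ ∀ s : ℂ, 3 / 2 < s.re →
          HasProd (fun p : Nat.Primes => twistFactor f q χ s p) (L q χ s)) ∧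
      (∀ q : ℕ, 1 ≤ q → Nat.Coprime q N → Differentiable ℂ (Z q) ∧
        analyticOrderAt (Z q) 1 ≠ ⊤ ∧
        ∀ (K : Type) [Field K] [NumberField K] [IsCyclotomicExtension {q} ℚ K] (s : ℂ), 3 / 2 < s.re →
          HasProd (fun v : HeightOneSpectrum (𝓞 K) => factor a b f s v) (Z q s)) ∧
      (∀ ε : ℝ, 0 < ε → ∃ q₀ : ℕ, ∀ q : ℕ, q₀ ≤ q → Nat.Coprime q N →
        ∀ χ : DirichletCharacter ℂ q, χ.IsPrimitive → (q : ℝ) ^ (3 / 4 + ε) ≤ orderOf χ →
          L q χ 1 ≠ 0) ∧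
      ∀ ε : ℝ, 0 < ε → ∃ C : ℝ, ∀ p : ℕ, p.Prime → p ≠ 2 → ¬ p ∣ N → ∀ k : ℕ,
        (analyticOrderNatAt (Z (p ^ k)) 1 : ℝ) ≤ C * ((p : ℝ) ^ k) ^ (3 / 4 + ε) ∧
        (analyticOrderNatAt (Z (p ^ k)) 1 : ℝ) ≤ C * (p : ℝ) ^ (3 + ε) := by
  classical
  obtain ⟨w, hw, hfr⟩ := hf.fricke
  obtain ⟨ω₁, ω₂, hω, hper⟩ := hf.periods
  have hN0 : (0 : ℝ) ≤ (N : ℝ) := Nat.cast_nonneg N
  have hsq : ((Real.sqrt N : ℝ) : ℂ) ^ 2 = (N : ℂ) := by
    have h1 : (Real.sqrt N) ^ 2 = (N : ℝ) := Real.sq_sqrt hN0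
    exact_mod_cast congrArg (fun x : ℝ => (x : ℂ)) h1
  have hf' : W388.IsNewf N 2 f w := by
    refine ⟨hf.one, hf.real, hf.mul, ?_, hw, ?_⟩
    · intro p j hp
      have h1 := hf.pow p j hp
      unfold coef at h1
      rw [h1]
      norm_num
    · intro τ τ' h
      rw [hfr τ τ' h]
      congr 1
      have hI : Complex.I ^ 2 = -1 := Complex.I_sq
      have : (((Real.sqrt N : ℝ) : ℂ) * (τ : ℂ) / Complex.I) ^ (2 : ℤ) = -((N : ℂ) * (τ : ℂ) ^ 2) := by
        rw [zpow_ofNat, div_pow, mul_pow, hsq, hI]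
        ring
      rw [this]
      ring
  have hreal : ∀ n, coef f n = (((coef f n).re : ℝ) : ℂ) := by
    intro n
    apply Complex.ext
    · simp
    · simp [hf.real n]
  have hcoef : Pool.Agent.W192.CY.Coef N (Pool.Agent.TH940.cr f) := by
    have hre : ∀ n, coef f n = ((Pool.Agent.TH940.cr f n : ℝ) : ℂ) := hreal
    have hnorm : ∀ n, |Pool.Agent.TH940.cr f n| = ‖coef f n‖ := by
      intro n
      rw [hre n, Complex.norm_real, Real.norm_eq_abs]
    refine ⟨?_, ?_, ?_, ?_, ?_, ?_⟩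
    · unfold Pool.Agent.TH940.cr
      rw [W388.coeff_zero f]; simp
    · have h := hf.one
      rw [hre 1] at h
      exact_mod_cast h
    · intro m n hmn
      have h := hf.mul m n hmn
      rw [hre, hre m, hre n] at h
      exact_mod_cast h
    · intro p j hp
      have h := hf.pow p j hp
      rw [hre, hre p, hre (p ^ (j + 1)), hre (p ^ j)] at h
      split_ifs at h ⊢ with hpN
      · rw [sub_zero] at h ⊢
        exact_mod_cast h
      · exact_mod_cast h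
    · intro p hp hpN
      rw [hnorm]
      exact hf.good p hp hpN
    · intro p hp hpN
      rw [hnorm]
      exact hf.bad p hp hpN
  have hΛ : Pool.Agent.TH940.Pers f (Pool.Agent.TH940.lat ω₁ ω₂) := by
    intro γ hγ
    obtain ⟨m, n, h⟩ := hper γ hγ
    exact ⟨m * ω₁ + n * ω₂, ⟨m, n, rfl⟩, h⟩
  obtain ⟨K, L, hK, hL, hnv⟩ := Pool.Agent.TH940.pack hf' hcoef hω hΛ
  have H : ∀ p : ℕ, p.Prime → ¬ (p : ℤ) ∣ 2 * (4 * a ^ 3 + 27 * b ^ 2) →
      ¬ p ∣ N ∧ coef f p = ((W165.CE.ap0 a b p : ℤ) : ℂ) := fun p hp h => hf.points p hp h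
  -- orders
  have han : ∀ (q : ℕ) (χ : DirichletCharacter ℂ q), 1 ≤ q → Nat.Coprime q N → χ.IsPrimitive →
      ∀ s : ℂ, AnalyticAt ℂ (L q χ) s := fun q χ h1 h2 h3 s => (hL q χ h1 h2 h3).1.analyticAt s
  have htop : ∀ (q : ℕ) (χ : DirichletCharacter ℂ q), 1 ≤ q → Nat.Coprime q N → χ.IsPrimitive →
      ∀ s : ℂ, analyticOrderAt (L q χ) s ≠ ⊤ := by
    intro q χ h1 h2 h3 s
    exact H370.Loc.order_ne_top (K := Set.univ) isPreconnected_univ (fun z _ => han q χ h1 h2 h3 z)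
      (Set.mem_univ _) (hL q χ h1 h2 h3).2.2.1 (Set.mem_univ s)
  set G : (q : ℕ) → DirichletCharacter ℂ q → ℕ := fun q χ => analyticOrderNatAt (L q χ) (1 / 2)
    with hG
  have hGH : Pool.Agent.TH940.GH N K G := by
    refine ⟨hK, fun q χ h1 h2 h3 => (hL q χ h1 h2 h3).2.2.2, fun δ hδ => ?_⟩
    obtain ⟨q0, hq0⟩ := hnv δ hδ
    refine ⟨q0, fun q h1 h2 h3 χ h4 h5 => ?_⟩
    have h6 := hq0 q h1 h2 h3 χ h4 h5
    rw [hG]
    simp only
    unfold analyticOrderNatAt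
    rw [(han q χ (by omega) h3 h4 _).analyticOrderAt_eq_zero.2 h6]
    rfl
  have hord : ∀ q : ℕ, 1 ≤ q → Nat.Coprime q N → analyticOrderAt (fun s : ℂ =>
      ∏ᶠ χ : DirichletCharacter ℂ q, L χ.conductor χ.primitiveCharacter (s - 1 / 2)) 1 =
      ((Pool.Agent.TH940.tot G q : ℕ) : ℕ∞) := by
    intro q hq hqM
    have : NeZero q := ⟨by omega⟩
    have hc : ∀ χ : DirichletCharacter ℂ q, 1 ≤ χ.conductor ∧ Nat.Coprime χ.conductor N ∧
        χ.primitiveCharacter.IsPrimitive := fun χ =>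
      ⟨Nat.one_le_iff_ne_zero.2 χ.conductor_ne_zero,
        Nat.Coprime.coprime_dvd_left χ.conductor_dvd_level hqM, χ.primitiveCharacter_isPrimitive⟩
    have e1 : (fun s : ℂ => ∏ᶠ χ : DirichletCharacter ℂ q,
        L χ.conductor χ.primitiveCharacter (s - 1 / 2)) =
        fun s : ℂ => (fun z : ℂ => ∏ χ : DirichletCharacter ℂ q,
          L χ.conductor χ.primitiveCharacter z) (s - 1 / 2) := by
      funext s
      exact finprod_eq_prod_of_fintype _
    rw [e1, order_shift (fun z : ℂ => ∏ χ : DirichletCharacter ℂ q,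
      L χ.conductor χ.primitiveCharacter z), order_prod Finset.univ
      (fun χ : DirichletCharacter ℂ q => L χ.conductor χ.primitiveCharacter) (1 / 2)
      (fun χ _ => han _ _ (hc χ).1 (hc χ).2.1 (hc χ).2.2 _)
      (fun χ _ => htop _ _ (hc χ).1 (hc χ).2.1 (hc χ).2.2 _)]
    unfold Pool.Agent.TH940.tot
    rw [finsum_eq_sum_of_fintype]
  refine ⟨fun q χ s => L q χ (s - 1 / 2), fun q s => ∏ᶠ χ : DirichletCharacter ℂ q,
    L χ.conductor χ.primitiveCharacter (s - 1 / 2), ?_, ?_, ?_, ?_⟩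
  · intro q χ hq hqN hχ
    obtain ⟨h1, h2, -⟩ := hL q χ hq hqN hχ
    refine ⟨h1.comp (by fun_prop), fun s hs => ?_⟩
    have h4 := h2 (s - 1 / 2) (by
      have : (s - 1 / 2 : ℂ).re = s.re - 1 / 2 := by simp
      rw [this]; linarith)
    refine (congrArg (fun g => HasProd g (L q χ (s - 1 / 2))) (funext fun p => ?_)).mpr h4
    exact twistFactor_eq f hf.real q χ s p p.2
  · intro q hq hqM
    have : NeZero q := ⟨by omega⟩
    refine ⟨?_, ?_, ?_⟩
    · simp_rw [finprod_eq_prod_of_fintype]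
      have h1 : ∀ χ ∈ (Finset.univ : Finset (DirichletCharacter ℂ q)),
          Differentiable ℂ (fun s : ℂ => L χ.conductor χ.primitiveCharacter (s - 1 / 2)) := by
        intro χ _
        have h2 := (hL χ.conductor χ.primitiveCharacter (Nat.one_le_iff_ne_zero.2 χ.conductor_ne_zero)
          (Nat.Coprime.coprime_dvd_left χ.conductor_dvd_level hqM) χ.primitiveCharacter_isPrimitive).1
        exact h2.comp (by fun_prop)
      exact Differentiable.fun_finsetProd h1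
    · rw [hord q hq hqM]
      exact ENat.natCast_ne_top _
    · intro K _ _ _ s hs
      have h2 := W165.CE.hasProd_euler hE H (fun q χ s => L q χ (s - 1 / 2)) (by
        intro q χ h1 h2 h3 s hs
        have h4 := (hL q χ h1 h2 h3).2.1 (s - 1 / 2) (by
          have : (s - 1 / 2 : ℂ).re = s.re - 1 / 2 := by simp
          rw [this]; linarith)
        refine (congrArg (fun g => HasProd g (L q χ (s - 1 / 2))) (funext fun p => ?_)).mpr h4
        exact eul_shift f hf.real q χ s p p.2) q hqM K s hs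
      show HasProd _ (∏ᶠ χ : DirichletCharacter ℂ q, L χ.conductor χ.primitiveCharacter (s - 1 / 2))
      rw [finprod_eq_prod_of_fintype]
      refine (congrArg (fun g => HasProd g _) (funext fun v => ?_)).mpr h2
      exact factor_eq_lib a b f s v
  · intro ε hε
    obtain ⟨q0, hq0⟩ := hnv ε hε
    refine ⟨max ⌈q0⌉₊ 2, fun q hq hqN χ hχ ho => ?_⟩
    have h1 : q0 ≤ q := (Nat.le_ceil q0).trans (by exact_mod_cast le_trans (le_max_left _ _) hq)
    have h2 : 2 ≤ q := le_trans (le_max_right _ _) hq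
    have h3 := hq0 q h1 (by omega) hqN χ hχ ho
    show L q χ (1 - 1 / 2) ≠ 0
    rw [show (1 - 1 / 2 : ℂ) = 1 / 2 by norm_num]
    exact h3
  · intro ε hε
    obtain ⟨C1, hC1, h1⟩ := Pool.Agent.TH940.tot_bound hGH hε
    obtain ⟨C2, hC2, h2⟩ := Pool.Agent.TH940.tot_bound2 hGH hε
    refine ⟨max C1 C2, fun p hp hp2 hpN k => ?_⟩
    have hq : 1 ≤ p ^ k := pow_pos hp.pos k
    have hqN : Nat.Coprime (p ^ k) N :=
      Nat.Coprime.pow_left k ((Nat.Prime.coprime_iff_not_dvd hp).2 hpN)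
    have h3 : analyticOrderNatAt (fun s : ℂ => ∏ᶠ χ : DirichletCharacter ℂ (p ^ k),
        L χ.conductor χ.primitiveCharacter (s - 1 / 2)) 1 = Pool.Agent.TH940.tot G (p ^ k) := by
      unfold analyticOrderNatAt
      rw [hord (p ^ k) hq hqN]
      rfl
    rw [h3]
    refine ⟨(h1 p hp hp2 hpN k).trans ?_, (h2 p hp hp2 hpN k).trans ?_⟩
    · exact mul_le_mul_of_nonneg_right (le_max_left _ _) (by positivity)
    · exact mul_le_mul_of_nonneg_right (le_max_right _ _) (by positivity)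

/-- The newform `η(z) η(2z) η(7z) η(14z)` of the curve `X_0(14)`: `y² + xy + y = x³ + 4x - 6`, i.e.
`y² = x³ + 5805 x - 285714`. -/
theorem inst : ∃ f : CuspForm (Gamma0 14 : Subgroup (GL (Fin 2) ℝ)) 2,
    IsFormOf 5805 (-285714) 14 f := by
  refine ⟨Pool.Agent.W97.MT.form14, ?_, ?_, ?_, ?_, ?_, ?_, ?_, ?_, ?_⟩
  · exact TH940.Inst.facts.2.1
  · intro n
    obtain ⟨c, hc⟩ := TH940.Inst.facts.1 n
    unfold coef
    rw [hc, Complex.intCast_im]
  · exact fun m n h => TH940.Inst.mul m n h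
  · exact fun p j hp => TH940.Inst.pow p j hp
  · exact fun p hp h => TH940.Inst.good p hp (fun h2 => h (h2 ▸ by norm_num))
  · exact fun p hp h => TH940.Inst.bad p hp h
  · exact_mod_cast TH940.Inst.fricke
  · intro p hp h
    have h2 : p ≠ 2 := by
      rintro rfl
      exact h (by norm_num)
    have h3 : p ≠ 3 := by
      rintro rfl
      exact h (by norm_num)
    have h7 : p ≠ 7 := by
      rintro rfl
      exact h (by norm_num)
    refine ⟨fun hd => ?_, TH940.Inst.points p hp h2 h3⟩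
    have h1 : p ∣ 2 * 7 := by simpa using hd
    rcases (Nat.Prime.dvd_mul hp).1 h1 with h4 | h4
    · exact h2 ((Nat.prime_dvd_prime_iff_eq hp Nat.prime_two).1 h4)
    · exact h7 ((Nat.prime_dvd_prime_iff_eq hp (by norm_num)).1 h4)
  · exact TH940.Inst.periods

/-- **Main theorem.** Let `E : y² = x³ + a x + b` be an elliptic curve over `ℚ` and let
`f ∈ S_2(Γ₀(N))` be its newform.  There are functions `L q χ` (the twisted `L`-functions
`L(E, χ, s)`) and `Z q` (the Hasse-Weil `L`-functions `L(E/ℚ(ζ_q), s)`) with the following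
properties.

* For every primitive Dirichlet character `χ` of conductor `q` prime to `N`, `L q χ` is entire and is
  for `Re s > 3/2` the Euler product of `L(E, χ, s)`.
* For every `q` prime to `N` and every cyclotomic field `K = ℚ(ζ_q)`, `Z q` is entire, does not vanish
  identically and is for `Re s > 3/2` the Euler product over all primes `v` of `K` of the local
  factors of `E`.
* For every `ε > 0` there is `q₀` such that `L(E, χ, 1) ≠ 0` for all primitive characters `χ` of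
  conductor `q ≥ q₀` prime to `N` and of order at least `q ^ (3/4 + ε)`.
* For every `ε > 0` there is `C` such that for all primes `p ≠ 2`, `p ∤ N` and all `k` the order of
  vanishing of `L(E/ℚ(ζ_(p^k)), s)` at `s = 1` is at most `C (p^k) ^ (3/4 + ε)` and at most
  `C p ^ (3 + ε)`.

The hypothesis on `f` (the modularity theorem) holds for the curve `X_0(14)`, so that for this curve
the result is unconditional. -/
theorem result :
    (∀ a b : ℤ, 4 * a ^ 3 + 27 * b ^ 2 ≠ 0 → ∀ (N : ℕ) [NeZero N]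
      (f : CuspForm (Gamma0 N : Subgroup (GL (Fin 2) ℝ)) 2), IsFormOf a b N f →
      ∃ (L : (q : ℕ) → DirichletCharacter ℂ q → ℂ → ℂ) (Z : ℕ → ℂ → ℂ),
        (∀ (q : ℕ) (χ : DirichletCharacter ℂ q), 1 ≤ q → Nat.Coprime q N → χ.IsPrimitive →
          Differentiable ℂ (L q χ) ∧ ∀ s : ℂ, 3 / 2 < s.re →
            HasProd (fun p : Nat.Primes => twistFactor f q χ s p) (L q χ s)) ∧
        (∀ q : ℕ, 1 ≤ q → Nat.Coprime q N → Differentiable ℂ (Z q) ∧
          analyticOrderAt (Z q) 1 ≠ ⊤ ∧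
          ∀ (K : Type) [Field K] [NumberField K] [IsCyclotomicExtension {q} ℚ K] (s : ℂ),
            3 / 2 < s.re → HasProd (fun v : HeightOneSpectrum (𝓞 K) => factor a b f s v) (Z q s)) ∧
        (∀ ε : ℝ, 0 < ε → ∃ q₀ : ℕ, ∀ q : ℕ, q₀ ≤ q → Nat.Coprime q N →
          ∀ χ : DirichletCharacter ℂ q, χ.IsPrimitive → (q : ℝ) ^ (3 / 4 + ε) ≤ orderOf χ →
            L q χ 1 ≠ 0) ∧
        ∀ ε : ℝ, 0 < ε → ∃ C : ℝ, ∀ p : ℕ, p.Prime → p ≠ 2 → ¬ p ∣ N → ∀ k : ℕ,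
          (analyticOrderNatAt (Z (p ^ k)) 1 : ℝ) ≤ C * ((p : ℝ) ^ k) ^ (3 / 4 + ε) ∧
          (analyticOrderNatAt (Z (p ^ k)) 1 : ℝ) ≤ C * (p : ℝ) ^ (3 + ε)) ∧
    ∃ f : CuspForm (Gamma0 14 : Subgroup (GL (Fin 2) ℝ)) 2, IsFormOf 5805 (-285714) 14 f :=
  ⟨fun a b hE N _ f hf => main a b hE N f hf, inst⟩

end Pool.Agent.Results.MP_32c55d_nt.CyclotomicAnalyticRank
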