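import Mathlib
import Pool.Agent.TH664.LN.R2Fin

/-! # Twists of rank at least two in every residue class

For nonzero integers `p`, `q` let `E : y² = x (x - p²) (x + q²)`; for `p = q = 1` this is the
congruent number curve. Every residue class modulo any `M` which contains a squarefree integer
contains, for both signs `ε = ±1`, a squarefree `d ≤ C M ^ 22 gcd(a, M) ^ 12` such that the
quadratic twist of `E` by `ε d` has rank at least two; `C` depends on `p`, `q` only.

Proof. With `m = p² + q²`, `k = p⁴ + p² q² + q⁴`, `H = ε h`, `W = H z²` the twist by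
`H (s + k W) (s² + 4 m p² s W + 4 m k p² W²) (s² + 4 p⁴ s W + 4 k p⁴ W²)` has two independent
points. One takes `z` and `s - 1` divisible by a multiple of `M`, `h` in the given class, and sieves
for the squares of primes in the values at pairs `(s, h)`. -/

set_option autoImplicit false

namespace Pool.Agent.Results.MP_32c55d_nt.RankTwoEveryClass

/-- the curve `y² = x (x - p² t) (x + q² t)`, the quadratic twist by `t` of
`y² = x (x - p²) (x + q²)` -/
def twist (p q t : ℤ) : WeierstrassCurve ℚ where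
  a₁ := 0
  a₂ := (((q ^ 2 - p ^ 2) * t : ℤ) : ℚ)
  a₃ := 0
  a₄ := ((-(p ^ 2 * q ^ 2 * t ^ 2) : ℤ) : ℚ)
  a₆ := 0

/-- the group of rational points contains two independent points -/
def RankAtLeastTwo (W : WeierstrassCurve ℚ) : Prop :=
  ∃ P R : W.toAffine.Point, ∀ m n : ℤ, m • P + n • R = 0 → m = 0 ∧ n = 0

theorem crv_eq (p q t : ℤ) :
    Pool.Agent.H918R3.crv (0 : ℚ) ((p : ℚ) ^ 2 * (t : ℚ)) (-((q : ℚ) ^ 2 * (t : ℚ))) =
      twist p q t := by
  unfold Pool.Agent.H918R3.crv twist
  congr 1 <;> push_cast <;> ring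

/-- Let `p`, `q` be nonzero integers. There is a constant `C` such that for every modulus `M` every
residue class `a` modulo `M` which contains a squarefree number contains, for both signs `ε`, a
squarefree number `d ≤ C M ^ 22 gcd(a, M) ^ 12` for which `y² = x (x - p² ε d) (x + q² ε d)` has
rank at least two. -/
theorem result (p q : ℤ) (hp : p ≠ 0) (hq : q ≠ 0) :
    ∃ C : ℕ, ∀ M : ℕ, 0 < M → ∀ a : ℕ, (∃ n₀ : ℕ, Squarefree n₀ ∧ n₀ ≡ a [MOD M]) →
      ∀ ε ∈ ({1, -1} : Set ℤ), ∃ d : ℕ, Squarefree d ∧ d ≡ a [MOD M] ∧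
        d ≤ C * M ^ 22 * (Nat.gcd a M) ^ 12 ∧ RankAtLeastTwo (twist p q (ε * d)) := by
  obtain ⟨C, hC⟩ := Pool.Agent.TH664.LN.rank2_main hp hq
  refine ⟨C, fun M hM a ha ε hε => ?_⟩
  obtain ⟨d, h1, h2, h3, h4⟩ := hC M hM a ha ε (by simpa using hε)
  refine ⟨d, h1, h2, h3, ?_⟩
  have h5 : RankAtLeastTwo (Pool.Agent.H918R3.crv _ _ _) := h4
  rw [crv_eq] at h5
  exact h5

end Pool.Agent.Results.MP_32c55d_nt.RankTwoEveryClass
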