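import Mathlib
import Pool.Agent.TH827.R2.Rk

set_option autoImplicit false

namespace Pool.Agent.Results.MP_32c55d_nt.RankTwoEveryInterval

/-- the curve `y² = (x - e₁ t) (x - e₂ t) (x - e₃ t)`, the quadratic twist by `t` of
`y² = (x - e₁) (x - e₂) (x - e₃)` -/
def twist (e₁ e₂ e₃ t : ℤ) : WeierstrassCurve ℚ where
  a₁ := 0
  a₂ := ((-(e₁ + e₂ + e₃) * t : ℤ) : ℚ)
  a₃ := 0
  a₄ := (((e₁ * e₂ + e₁ * e₃ + e₂ * e₃) * t ^ 2 : ℤ) : ℚ)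
  a₆ := ((-(e₁ * e₂ * e₃) * t ^ 3 : ℤ) : ℚ)

/-- the group of rational points contains two independent points -/
def RankAtLeastTwo (W : WeierstrassCurve ℚ) : Prop :=
  ∃ P R : W.toAffine.Point, ∀ m n : ℤ, m • P + n • R = 0 → m = 0 ∧ n = 0

theorem crv_eq (e₁ e₂ e₃ t : ℤ) :
    Pool.Agent.H918R3.crv ((e₁ : ℚ) * (t : ℚ)) ((e₂ : ℚ) * (t : ℚ)) ((e₃ : ℚ) * (t : ℚ)) =
      twist e₁ e₂ e₃ t := by
  unfold Pool.Agent.H918R3.crv twist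
  congr 1 <;> push_cast <;> ring

theorem twist_swap (e₁ e₂ e₃ t : ℤ) : twist e₂ e₁ e₃ t = twist e₁ e₂ e₃ t := by
  unfold twist
  congr 1 <;> push_cast <;> ring

theorem one_sign {e₁ e₂ e₃ : ℤ} (h12 : e₁ ≠ e₂) (h13 : e₁ ≠ e₃) (h23 : e₂ ≠ e₃)
    {h g : ℕ} (hh : Squarefree h)
    (hhg : h * g ^ 2 = ((e₁ - e₂) * (e₂ - e₃) * (e₃ - e₁) *
      ((e₁ - e₂) ^ 2 + (e₁ - e₂) * (e₂ - e₃) + (e₂ - e₃) ^ 2)).natAbs)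
    {M : ℕ} (hM : 0 < M) {ε : ℤ} (hε : ε = 1 ∨ ε = -1) :
    ∃ C : ℝ, 0 < C ∧ ∀ X : ℝ, 2 ≤ X → ∃ d : ℕ, X ≤ ((h * d : ℕ) : ℝ) ∧
        ((h * d : ℕ) : ℝ) ≤ X + C * X ^ ((5 : ℝ) / 6) * (Real.log X) ^ 4 ∧
        Squarefree (h * d) ∧ d ≡ 1 [MOD M] ∧
        RankAtLeastTwo (twist e₁ e₂ e₃ (ε * (h * d : ℕ))) := by
  have hn : (e₁ - e₂) * (e₂ - e₃) * (e₃ - e₁) ≠ 0 :=
    mul_ne_zero (mul_ne_zero (sub_ne_zero.2 h12) (sub_ne_zero.2 h23)) (sub_ne_zero.2 h13.symm)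
  have hsg : ((e₁ - e₂) * (e₂ - e₃) * (e₃ - e₁)).sign = ε ∨
      ((e₂ - e₁) * (e₁ - e₃) * (e₃ - e₂)).sign = ε := by
    have h1 : (e₂ - e₁) * (e₁ - e₃) * (e₃ - e₂) = -((e₁ - e₂) * (e₂ - e₃) * (e₃ - e₁)) := by ring
    rw [h1, Int.sign_neg]
    rcases lt_or_gt_of_ne hn with h | h
    · rw [Int.sign_eq_neg_one_of_neg h]
      rcases hε with rfl | rfl
      · exact Or.inr rfl
      · exact Or.inl rfl
    · rw [Int.sign_eq_one_of_pos h]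
      rcases hε with rfl | rfl
      · exact Or.inl rfl
      · exact Or.inr rfl
  rcases hsg with hsg | hsg
  · obtain ⟨C, hC, hN⟩ := Pool.Agent.TH827.R2.rk_main h12 h13 h23 hh hhg hM
    refine ⟨C, hC, fun X hX => ?_⟩
    obtain ⟨d, hd1, hd2, hd3, hd4, hd5⟩ := hN X hX
    refine ⟨d, hd1, hd2, hd3, hd4, ?_⟩
    have h5 : RankAtLeastTwo (Pool.Agent.H918R3.crv _ _ _) := hd5
    rw [crv_eq, hsg] at h5
    exact h5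
  · have hhg' : h * g ^ 2 = ((e₂ - e₁) * (e₁ - e₃) * (e₃ - e₂) *
        ((e₂ - e₁) ^ 2 + (e₂ - e₁) * (e₁ - e₃) + (e₁ - e₃) ^ 2)).natAbs := by
      rw [hhg, ← Int.natAbs_neg]
      congr 1
      ring
    obtain ⟨C, hC, hN⟩ := Pool.Agent.TH827.R2.rk_main h12.symm h23 h13 hh hhg' hM
    refine ⟨C, hC, fun X hX => ?_⟩
    obtain ⟨d, hd1, hd2, hd3, hd4, hd5⟩ := hN X hX
    refine ⟨d, hd1, hd2, hd3, hd4, ?_⟩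
    have h5 : RankAtLeastTwo (Pool.Agent.H918R3.crv _ _ _) := hd5
    rw [crv_eq, hsg, twist_swap] at h5
    exact h5

theorem result (e₁ e₂ e₃ : ℤ) (h12 : e₁ ≠ e₂) (h13 : e₁ ≠ e₃) (h23 : e₂ ≠ e₃) :
    ∃ h g : ℕ, Squarefree h ∧
      h * g ^ 2 = ((e₁ - e₂) * (e₂ - e₃) * (e₃ - e₁) *
        ((e₁ - e₂) ^ 2 + (e₁ - e₂) * (e₂ - e₃) + (e₂ - e₃) ^ 2)).natAbs ∧
      ∀ M : ℕ, 0 < M → ∃ C : ℝ, 0 < C ∧ ∀ X : ℝ, 2 ≤ X → ∀ ε ∈ ({1, -1} : Set ℤ), ∃ d : ℕ,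
        X ≤ ((h * d : ℕ) : ℝ) ∧
        ((h * d : ℕ) : ℝ) ≤ X + C * X ^ ((5 : ℝ) / 6) * (Real.log X) ^ 4 ∧
        Squarefree (h * d) ∧ d ≡ 1 [MOD M] ∧
        RankAtLeastTwo (twist e₁ e₂ e₃ (ε * (h * d : ℕ))) := by
  obtain ⟨h, g, hhg, hh⟩ := Nat.sq_mul_squarefree ((e₁ - e₂) * (e₂ - e₃) * (e₃ - e₁) *
        ((e₁ - e₂) ^ 2 + (e₁ - e₂) * (e₂ - e₃) + (e₂ - e₃) ^ 2)).natAbs
  have hhg' : h * g ^ 2 = ((e₁ - e₂) * (e₂ - e₃) * (e₃ - e₁) *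
        ((e₁ - e₂) ^ 2 + (e₁ - e₂) * (e₂ - e₃) + (e₂ - e₃) ^ 2)).natAbs := by
    rw [← hhg]; ring
  refine ⟨h, g, hh, hhg', fun M hM => ?_⟩
  obtain ⟨C1, hC1, hN1⟩ := one_sign h12 h13 h23 hh hhg' hM (ε := 1) (Or.inl rfl)
  obtain ⟨C2, hC2, hN2⟩ := one_sign h12 h13 h23 hh hhg' hM (ε := -1) (Or.inr rfl)
  refine ⟨C1 + C2, by positivity, fun X hX ε hε => ?_⟩
  have hlog : 0 ≤ Real.log X := Real.log_nonneg (by linarith)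
  have hpos : 0 ≤ X ^ ((5 : ℝ) / 6) * (Real.log X) ^ 4 :=
    mul_nonneg (Real.rpow_nonneg (by linarith) _) (by positivity)
  have e : (C1 + C2) * X ^ ((5 : ℝ) / 6) * (Real.log X) ^ 4 =
      C1 * (X ^ ((5 : ℝ) / 6) * (Real.log X) ^ 4) + C2 * (X ^ ((5 : ℝ) / 6) * (Real.log X) ^ 4) := by
    ring
  have p1 := mul_nonneg hC1.le hpos
  have p2 := mul_nonneg hC2.le hpos
  simp only [Set.mem_insert_iff, Set.mem_singleton_iff] at hε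
  rcases hε with rfl | rfl
  · obtain ⟨d, hd1, hd2, hd3⟩ := hN1 X hX
    refine ⟨d, hd1, hd2.trans ?_, hd3⟩
    rw [e, mul_assoc C1]
    linarith
  · obtain ⟨d, hd1, hd2, hd3⟩ := hN2 X hX
    refine ⟨d, hd1, hd2.trans ?_, hd3⟩
    rw [e, mul_assoc C2]
    linarith

end Pool.Agent.Results.MP_32c55d_nt.RankTwoEveryInterval
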